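import Pool.Agent.V8H50.AF.Defs
import Pool.Agent.V8H50.MA.Base
import Pool.Agent.V8H92.TA.Hor
import Pool.Agent.W619.Y.LRes

/-!
If the hyperplanes of a factor have a common point then the variety is covered by affine lines.
-/

set_option autoImplicit false
set_option linter.unusedSectionVars false

open FF Pool.Agent.W602.GT Pool.Agent.W603.LV Pool.Agent.Y191 Pool.Agent.V8H50.MA Pool.Agent.TH585.SV
open Pool.Agent.W619.PL (IsA1Uniruled)

namespace Pool.Agent.V8H50.AF

/-- images of `A¹`-uniruled varieties are `A¹`-uniruled -/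
theorem a1_push {L E : Type} [Field L] [Field E] [Algebra ℂ L] [Algebra ℂ E] [Algebra L E]
    [IsScalarTower ℂ L E] {n : ℕ} {BE : Place ℂ E → Prop} {BL : Place ℂ L → Prop}
    (hB : ∀ (P : Place ℂ L) (Q : Place ℂ E) (e : ℕ), Over Q P e → BL P → BE Q)
    (hA : IsA1Uniruled ℂ E n BE) : IsA1Uniruled ℂ L n BL := by
  obtain ⟨M, _, _, φ, h1, h2, h3⟩ := hA
  refine ⟨M, inferInstance, inferInstance, φ.comp (IsScalarTower.toAlgHom ℂ L E), h1, h2,
    fun w hX v e he hv hb => ?_⟩
  have hv' : ∀ f : L, w.ord (φ (algebraMap L E f)) = e * v.ord f := hv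
  obtain ⟨t, ht0, ht⟩ := v.surj
  have he' : (0 : ℤ) < e := by exact_mod_cast he
  obtain ⟨w', a, ha, hw'⟩ := Pool.Agent.W619.Y.exists_restrict w (φ : E →+* RatFunc M)
    (fun c hc => by
      change w.ord (φ (algebraMap ℂ E c)) = 0
      rw [φ.commutes, IsScalarTower.algebraMap_apply ℂ M (RatFunc M)]
      exact w.ord_const (by simpa using hc)) (f0 := algebraMap L E t) (by
      have h4 := hv' t
      rw [ht, mul_one] at h4
      change w.ord (φ (algebraMap L E t)) ≠ 0
      rw [h4]
      omega)
  have ha' : (0 : ℤ) < a := by exact_mod_cast ha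
  have h5 : (a : ℤ) * w'.ord (algebraMap L E t) = e := by
    rw [← hw']
    have h4 := hv' t
    rw [ht, mul_one] at h4
    exact h4
  have h6 : 0 < w'.ord (algebraMap L E t) := by
    by_contra h
    have : (a : ℤ) * w'.ord (algebraMap L E t) ≤ 0 :=
      mul_nonpos_of_nonneg_of_nonpos ha'.le (not_lt.1 h)
    omega
  refine h3 w hX w' a ha (fun f => hw' f) (hB v w' (w'.ord (algebraMap L E t)).toNat
    ⟨by omega, fun f => ?_⟩ hb)
  rw [Int.toNat_of_nonneg h6.le]
  have h7 : (a : ℤ) * w'.ord (algebraMap L E f) = e * v.ord f := by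
    rw [← hw']
    exact hv' f
  apply mul_left_cancel₀ ha'.ne'
  rw [h7, ← h5]
  ring

/-- A common point of hyperplanes with coefficients in a subfield has coordinates in the subfield. -/
theorem exists_point {F K : Type} [Field F] [Field K] [Algebra F K] {m s : ℕ}
    {A : Fin s → Fin m → K} (hA : ∀ i k, IsAlgebraic F (A i k))
    (h : Submodule.span K (Set.range A) ≠ ⊤) :
    ∃ a : Fin m → K, (∃ k, a k ≠ 0) ∧ (∀ k, IsAlgebraic F (a k)) ∧
      ∀ i, ∑ k, A i k * a k = 0 := by
  classical
  let R := algebraicClosure F K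
  let AR : Fin s → Fin m → R := fun i k => ⟨A i k, mem_algebraicClosure_iff.2 (hA i k)⟩
  have hlt : Submodule.span R (Set.range AR) < ⊤ := by
    rw [lt_top_iff_ne_top]
    intro htop
    apply h
    rw [eq_top_iff]
    have hs : ∀ x : Fin m → R, x ∈ Submodule.span R (Set.range AR) →
        (fun k => (x k : K)) ∈ Submodule.span K (Set.range A) := by
      intro x hx
      induction hx using Submodule.span_induction with
      | mem x hx =>
        obtain ⟨i, rfl⟩ := hx
        exact Submodule.subset_span ⟨i, rfl⟩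
      | zero =>
        have : (fun k : Fin m => (((0 : Fin m → R) k : R) : K)) = 0 := by
          funext k
          simp
        rw [this]
        exact Submodule.zero_mem _
      | add x y _ _ hx hy =>
        have : (fun k : Fin m => (((x + y) k : R) : K)) =
            (fun k => (x k : K)) + fun k => (y k : K) := by
          funext k
          simp
        rw [this]
        exact Submodule.add_mem _ hx hy
      | smul c x _ hx =>
        have : (fun k : Fin m => (((c • x) k : R) : K)) = (c : K) • fun k => (x k : K) := by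
          funext k
          simp
        rw [this]
        exact Submodule.smul_mem _ _ hx
    intro x _
    have hx : x = ∑ k, x k • (fun l => (((Pi.single k 1 : Fin m → R) l : R) : K)) := by
      funext l
      rw [Finset.sum_apply, Finset.sum_eq_single l]
      · simp
      · intro k _ hk
        simp [Pi.single_eq_of_ne (Ne.symm hk)]
      · intro hl
        exact absurd (Finset.mem_univ l) hl
    rw [hx]
    exact Submodule.sum_mem _ fun k _ => Submodule.smul_mem _ _ (hs _ (by rw [htop]; trivial))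
  obtain ⟨f, hf0, hf⟩ := Submodule.exists_le_ker_of_lt_top _ hlt
  refine ⟨fun k => (f (Pi.single k 1) : K), ?_, fun k => mem_algebraicClosure_iff.1
    (f (Pi.single k 1)).2, fun i => ?_⟩
  · by_contra hcon
    push Not at hcon
    apply hf0
    apply LinearMap.pi_ext'
    intro k
    apply LinearMap.ext_ring
    have h1 := hcon k
    change f (Pi.single k 1) = 0
    exact Subtype.ext h1
  · have h1 : f (AR i) = 0 := hf (Submodule.subset_span ⟨i, rfl⟩)
    have h2 : f (AR i) = ∑ k, AR i k * f (Pi.single k 1) := by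
      conv_lhs => rw [← Finset.univ_sum_single (AR i)]
      rw [map_sum]
      refine Finset.sum_congr rfl fun k _ => ?_
      have h3 : (Pi.single k (AR i k) : Fin m → R) = AR i k • Pi.single k 1 := by
        rw [← Pi.single_smul, smul_eq_mul, mul_one]
      rw [h3, map_smul, smul_eq_mul]
    rw [h1] at h2
    have h3 := congrArg (fun z : R => (z : K)) h2
    simp only [ZeroMemClass.coe_zero] at h3
    rw [h3]
    push_cast
    rfl

section

variable {K K' : Type} [Field K] [Field K'] [Algebra ℂ K] [Algebra ℂ K'] [Algebra K K']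
  [IsScalarTower ℂ K K'] {c : ℕ} {r q : Fin c → ℕ} [FiniteDimensional K K']
variable {A : ∀ j, Fin (q j) → Fin (r j + 1) → K'} {u : (Σ j, Fin (r j)) → K'}
variable {L : IntermediateField ℂ K} {Bd : Place ℂ K → Prop}

theorem sub_ne_zero' (hu : IsTranscendenceBasis (upF K' L) u) (j0 : Fin c)
    {k0 k1 : Fin (r j0 + 1)} (hk : k1 ≠ k0) {t : K'} (ht : IsAlgebraic (upF K' L) t) :
    hcd u j0 k1 - t * hcd u j0 k0 ≠ 0 := by
  classical
  let A' : ∀ j, Fin 1 → Fin (r j + 1) → K' := fun j _ k =>
    if j = j0 then (if k.val = k1.val then 1 else 0) + (if k.val = k0.val then -t else 0)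
    else (if k.val = 0 then 1 else 0)
  have h1 : lmv (q := fun _ => 1) A' u j0 0 ≠ 0 := by
    refine lmv_lc (L := upF K' L) (fun j i => ?_) hu j0 0
    by_cases hj : j = j0
    · subst hj
      refine ⟨⟨k1, ?_⟩, fun k => ?_⟩
      · simp only [A', if_true]
        rw [if_neg fun h => hk (Fin.ext h), add_zero]
        exact one_ne_zero
      · simp only [A', if_true]
        refine IsAlgebraic.add ?_ ?_
        · split_ifs
          · exact isAlgebraic_one
          · exact isAlgebraic_zero
        · split_ifs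
          · exact ht.neg
          · exact isAlgebraic_zero
    · refine ⟨⟨0, ?_⟩, fun k => ?_⟩
      · simp [A', hj]
      · simp only [A', if_neg hj]
        split_ifs
        · exact isAlgebraic_one
        · exact isAlgebraic_zero
  have h2 : lmv (q := fun _ => 1) A' u j0 0 = hcd u j0 k1 - t * hcd u j0 k0 := by
    unfold lmv
    have h3 : ∀ k : Fin (r j0 + 1), A' j0 0 k * hcd u j0 k =
        (if k = k1 then hcd u j0 k else 0) + (if k = k0 then -t * hcd u j0 k else 0) := by
      intro k
      simp only [A', if_true, Fin.val_inj]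
      split_ifs <;> ring
    rw [Finset.sum_congr rfl fun k _ => h3 k, Finset.sum_add_distrib, Finset.sum_ite_eq',
      Finset.sum_ite_eq', if_pos (Finset.mem_univ _), if_pos (Finset.mem_univ _)]
    ring
  rw [← h2]
  exact h1

/-- **Affine lines.** -/
theorem a1_nonspan {n : ℕ} (hess : Algebra.EssFiniteType ℂ K) (hK : Algebra.trdeg ℂ K = n)
    (hF : ArrFib L Bd A u) (hj0 : ¬ Spanning A) : IsA1Uniruled ℂ K n Bd := by
  classical
  unfold Spanning at hj0
  push Not at hj0
  obtain ⟨j0, hj0⟩ := hj0
  obtain ⟨a0, ⟨k0, hk0⟩, haL, haA⟩ := exists_point (fun i k => (hF.forms j0 i).2 k) hj0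
  obtain ⟨a, haj, han⟩ : ∃ a : ∀ j, Fin (r j + 1) → K', a j0 = a0 ∧ ∀ j ≠ j0, a j = 0 :=
    ⟨Function.update (fun j => 0) j0 a0, Function.update_self _ _ _,
      fun j hj => Function.update_of_ne hj _ _⟩
  have haAll : ∀ j k, IsAlgebraic (upF K' L) (a j k) := by
    intro j k
    by_cases hj : j = j0
    · subst hj
      rw [haj]
      exact haL k
    · rw [han j hj]
      exact isAlgebraic_zero
  have haker : ∀ j i, ∑ k, A j i k * a j k = 0 := by
    intro j i
    by_cases hj : j = j0
    · subst hj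
      rw [haj]
      exact haA i
    · rw [han j hj]
      simp
  have hak0 : a j0 k0 ≠ 0 := by rw [haj]; exact hk0
  have hr := hF.pos j0
  obtain ⟨k1, hk1⟩ : ∃ k1 : Fin (r j0 + 1), k1 ≠ k0 := by
    have : Nontrivial (Fin (r j0 + 1)) := Fin.nontrivial_iff_two_le.2 (by omega)
    exact exists_ne k0
  have hcL : CharZero (upF K' L) :=
    charZero_of_injective_algebraMap (algebraMap ℂ (upF K' L)).injective
  -- the derivation
  obtain ⟨d, hd⟩ := exists_der (L := upF K' L) u hF.basis
    (fun s => a s.1 s.2.succ - a s.1 0 * u s)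
  obtain ⟨δ, hδ⟩ : ∃ δ : Derivation ℂ K' K', ∀ z, δ z = d z := ⟨d.restrictScalars ℂ, fun _ => rfl⟩
  have hδalg : ∀ z : K', IsAlgebraic (upF K' L) z → δ z = 0 := fun z hz => by
    rw [hδ]
    exact der_alg d hz
  have hδx : ∀ j k, δ (hcd u j k) = a j k - a j 0 * hcd u j k := by
    intro j k
    refine Fin.cases ?_ (fun k => ?_) k
    · rw [hcd_zero, mul_one, sub_self]
      exact δ.map_one_eq_zero
    · rw [hcd_succ, hδ, hd]
  have hδmul : ∀ x y : K', δ (x * y) = x * δ y + y * δ x := fun x y => by
    rw [δ.leibniz, smul_eq_mul, smul_eq_mul]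
  obtain ⟨y, hy⟩ : ∃ y : Fin (r j0 + 1) → K', ∀ k, y k =
      hcd u j0 k - a j0 k / a j0 k0 * hcd u j0 k0 := ⟨_, fun _ => rfl⟩
  have hquo : ∀ k, IsAlgebraic (upF K' L) (a j0 k / a j0 k0) := fun k => by
    rw [div_eq_mul_inv]
    exact (haAll j0 k).mul (haAll j0 k0).inv
  have hδy : ∀ k, δ (y k) = -a j0 0 * y k := by
    intro k
    rw [hy, map_sub, hδmul, hδalg _ (hquo k), hδx, hδx]
    field_simp
    ring
  have hy1 : y k1 ≠ 0 := by
    rw [hy]
    exact sub_ne_zero' hF.basis j0 hk1 (hquo k1)
  have hδdiv : ∀ x : K', δ (x / y k1) = (δ x + a j0 0 * x) / y k1 := by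
    intro x
    have h1 : δ (x / y k1 * y k1) = x / y k1 * δ (y k1) + y k1 * δ (x / y k1) := hδmul _ _
    rw [div_mul_cancel₀ _ hy1, hδy] at h1
    rw [eq_div_iff hy1, h1]
    field_simp
    ring
  obtain ⟨σ, hσ⟩ : ∃ σ : K', σ = hcd u j0 k0 / y k1 := ⟨_, rfl⟩
  have hδσ : δ σ ≠ 0 := by
    rw [hσ, hδdiv, hδx]
    have : a j0 k0 - a j0 0 * hcd u j0 k0 + a j0 0 * hcd u j0 k0 = a j0 k0 := by ring
    rw [this]
    exact div_ne_zero hak0 hy1
  have hσt : Transcendental (consts δ) σ := fun h => hδσ (der_of_alg δ h)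
  have hmemE : ∀ z, δ z = 0 → z ∈ consts δ := fun z hz => hz
  have hx1 : ∀ k, hcd u j0 k / y k1 = y k / y k1 + a j0 k / a j0 k0 * σ := by
    intro k
    rw [hσ, hy k]
    field_simp
    ring
  have hyE : ∀ k, y k / y k1 ∈ consts δ := by
    intro k
    apply hmemE
    rw [hδdiv, hδy]
    have : -a j0 0 * y k + a j0 0 * y k = 0 := by ring
    rw [this, zero_div]
  have hσm : σ ∈ IntermediateField.adjoin (consts δ) {σ} :=
    IntermediateField.mem_adjoin_simple_self _ _
  have hEm : ∀ z ∈ consts δ, z ∈ IntermediateField.adjoin (consts δ) {σ} := fun z hz =>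
    (IntermediateField.adjoin (consts δ) {σ}).algebraMap_mem ⟨z, hz⟩
  have hxm : ∀ k, hcd u j0 k / y k1 ∈ IntermediateField.adjoin (consts δ) {σ} := by
    intro k
    rw [hx1]
    exact add_mem (hEm _ (hyE k)) (mul_mem (hEm _ (hmemE _ (hδalg _ (hquo k)))) hσm)
  have hym : y k1 ∈ IntermediateField.adjoin (consts δ) {σ} := by
    have h1 := hxm 0
    rw [hcd_zero, one_div] at h1
    have h2 := inv_mem h1
    rwa [inv_inv] at h2
  have htop : IntermediateField.adjoin (consts δ) {σ} = ⊤ := by
    have h1 : IntermediateField.adjoin ℂ ({a : K' | IsAlgebraic (upF K' L) a} ∪ Set.range u) ≤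
        (IntermediateField.adjoin (consts δ) {σ}).restrictScalars ℂ := by
      rw [IntermediateField.adjoin_le_iff]
      rintro z (hz | ⟨⟨j, k⟩, rfl⟩)
      · exact hEm _ (hmemE _ (hδalg _ hz))
      · by_cases hj : j = j0
        · subst hj
          have h2 := mul_mem (hxm k.succ) hym
          rwa [div_mul_cancel₀ _ hy1, hcd_succ] at h2
        · refine hEm _ (hmemE _ ?_)
          have h2 := hδx j k.succ
          rw [han j hj, hcd_succ] at h2
          simpa using h2
    rw [hF.top] at h1
    rw [eq_top_iff]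
    intro z _
    exact h1 (show z ∈ (⊤ : IntermediateField ℂ K') from trivial)
  have hessKK : Algebra.EssFiniteType K K' := inferInstance
  have hess' : Algebra.EssFiniteType ℂ K' := Algebra.EssFiniteType.comp ℂ K K'
  have hK' : Algebra.trdeg ℂ K' = n := by
    have h1 := _root_.trdeg_add_eq ℂ K (A := K')
    have : Algebra.IsAlgebraic K K' := inferInstance
    rw [_root_.trdeg_eq_zero (R := K) (A := K'), add_zero] at h1
    rw [← h1, hK]
  have hupE : ∀ f ∈ L, algebraMap K K' f ∈ consts δ := by
    intro f hf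
    refine hmemE _ (hδalg _ ?_)
    exact isAlgebraic_algebraMap (⟨algebraMap K K' f, mem_upF.2 ⟨f, hf, rfl⟩⟩ : upF K' L)
  refine a1_push (E := K') (BE := fun Q => ∃ (P : Place ℂ K) (e : ℕ), Over Q P e ∧ Bd P)
    (fun P Q e h hb => ⟨P, e, h, hb⟩) ?_
  refine Pool.Agent.V8H92.TA.a1_of_field hK' (consts δ) hσt (Pool.Agent.N136.IS.fg_sub _) htop
    fun Q hQE hQσ => ?_
  rintro ⟨P, e, hov, hb⟩
  have he : (e : ℤ) ≠ 0 := by exact_mod_cast hov.1.ne'
  refine hF.centre P (fun f hf hf0 => ?_) Q e hov (fun j => ?_) hb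
  · have h1 := hQE _ (hupE f hf)
    rw [hov.2] at h1
    exact (mul_eq_zero.1 h1).resolve_left he
  have hl := lmv_lc (L := upF K' L) hF.forms hF.basis
  have hδl : ∀ j i, δ (lmv A u j i) = -a j 0 * lmv A u j i := by
    intro j i
    unfold lmv
    rw [map_sum]
    have h1 : ∀ k, δ (A j i k * hcd u j k) = A j i k * a j k - a j 0 * (A j i k * hcd u j k) := by
      intro k
      rw [hδmul, hδalg _ ((hF.forms j i).2 k), hδx]
      ring
    rw [Finset.sum_congr rfl fun k _ => h1 k, Finset.sum_sub_distrib, haker, ← Finset.mul_sum]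
    ring
  by_cases hj : j = j0
  · subst hj
    refine ⟨Q.ord (y k1), ?_⟩
    have hreg : ∀ k, hcd u j k = 0 ∨ Q.ord (y k1) ≤ Q.ord (hcd u j k) := by
      intro k
      by_cases h0 : hcd u j k = 0
      · exact Or.inl h0
      right
      have h1 : Q.Reg (hcd u j k / y k1) := by
        rw [hx1]
        refine Q.reg_add (Or.inr (hQE _ (hyE k)).ge) (Q.reg_mul ?_ (Or.inr hQσ))
        exact Or.inr (hQE _ (hmemE _ (hδalg _ (hquo k)))).ge
      rcases h1 with h1 | h1
      · exact absurd h1 (div_ne_zero h0 hy1)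
      · rw [Q.ord_div h0 hy1] at h1
        linarith
    refine ⟨hreg, ?_, fun i => ?_⟩
    · by_contra hcon
      push Not at hcon
      have h2 : ∀ k, hcd u j k = 0 ∨ Q.ord (y k1) + 1 ≤ Q.ord (hcd u j k) := by
        intro k
        by_cases h0 : hcd u j k = 0
        · exact Or.inl h0
        right
        have h3 := (hreg k).resolve_left h0
        have h4 := hcon k h0
        omega
      have h4 : Ge Q 0 (a j k1 / a j k0) := Or.inr (hQE _ (hmemE _ (hδalg _ (hquo k1)))).ge
      have h5 : Ge Q (0 + (Q.ord (y k1) + 1)) (a j k1 / a j k0 * hcd u j k0) := h4.mul (h2 k0)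
      rw [zero_add] at h5
      have h3 : Ge Q (Q.ord (y k1) + 1) (y k1) := by
        have h6 : Ge Q (Q.ord (y k1) + 1) (hcd u j k1 - a j k1 / a j k0 * hcd u j k0) :=
          Ge.sub (h2 k1) h5
        rwa [← hy k1] at h6
      rcases h3 with h3 | h3
      · exact hy1 h3
      · omega
    · have h1 : lmv A u j i / y k1 ∈ consts δ := by
        apply hmemE
        rw [hδdiv, hδl]
        have : -a j 0 * lmv A u j i + a j 0 * lmv A u j i = 0 := by ring
        rw [this, zero_div]
      have h2 := hQE _ h1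
      rw [Q.ord_div (hl j i) hy1] at h2
      change Q.ord (lmv A u j i) = Q.ord (y k1) + ((0 : ℕ) : ℤ)
      push_cast
      linarith
  · have hxE : ∀ k, hcd u j k ∈ consts δ := by
      intro k
      apply hmemE
      rw [hδx, han j hj]
      simp
    refine ⟨0, fun k => Or.inr (hQE _ (hxE k)).ge, ⟨0, ?_, hQE _ (hxE 0)⟩, fun i => ?_⟩
    · rw [hcd_zero]
      exact one_ne_zero
    · have h1 : lmv A u j i ∈ consts δ := by
        apply hmemE
        rw [hδl, han j hj]
        simp
      change Q.ord (lmv A u j i) = 0 + ((0 : ℕ) : ℤ)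
      rw [hQE _ h1]
      simp

end

end Pool.Agent.V8H50.AF
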