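import Pool.Agent.V8H50.MA.Defs
import Pool.Agent.Y191.LcForm

/-!
Open varieties fibred in (quotients by free actions of finite groups of) products of complements of
arrangements of hyperplanes: definitions.
-/

set_option autoImplicit false

open FF Pool.Agent.W602.GT Pool.Agent.W603.LV Pool.Agent.Y191 Pool.Agent.V8H50.MA

namespace Pool.Agent.V8H50.AF

section

variable {K K' : Type} [Field K] [Field K'] [Algebra ℂ K] [Algebra ℂ K'] [Algebra K K']
  [IsScalarTower ℂ K K'] {c : ℕ} {r q : Fin c → ℕ}

/-- The centre of the place `Q` on the product of the projective spaces with the affine coordinates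
`u` is in the product of the complements of the hyperplanes `A j i = 0`: for each factor all forms
`A j i` have the smallest order of the homogeneous coordinates. -/
def OnC (A : ∀ j, Fin (q j) → Fin (r j + 1) → K') (u : (Σ j, Fin (r j)) → K')
    (Q : Place ℂ K') : Prop :=
  ∀ j, ∃ a : ℤ, MOrd Q (A j) (hcd u j) a fun _ => 0

/-- The hyperplanes of each factor have no common point. -/
def Spanning (A : ∀ j, Fin (q j) → Fin (r j + 1) → K') : Prop :=
  ∀ j, Submodule.span K' (Set.range (A j)) = ⊤

/-- The generic fibre over the variety with the function field `L` of the variety with the function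
field `K`, for which `Bd` is the set of the places without centre on it, has a finite étale cover, with
the function field `K'`, which is (up to proper birational maps) the product of the complements of the
arrangements `A j i = 0` of hyperplanes in the projective spaces of dimensions `r j ≥ 1`, over the
algebraic closure of `L` in `K'`:

* the coefficients of the hyperplanes are algebraic over `L`, the affine coordinates `u` of the
  projective spaces are algebraically independent over `L`, and `K'` is generated by `u` over the
  algebraic closure of `L`;
* if the place `Q` of `K'` is over the place `P` of `K` which is trivial on `L`, then `P` has a centre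
  on the variety if and only if the centre of `Q` is in the product of the complements; and `Q` is
  unramified over `P` in this case. -/
structure ArrFib (L : IntermediateField ℂ K) (Bd : Place ℂ K → Prop)
    (A : ∀ j, Fin (q j) → Fin (r j + 1) → K') (u : (Σ j, Fin (r j)) → K') : Prop where
  pos : ∀ j, 1 ≤ r j
  forms : ∀ j i, (∃ k, A j i k ≠ 0) ∧ ∀ k, IsAlgebraic (upF K' L) (A j i k)
  basis : IsTranscendenceBasis (upF K' L) u
  top : IntermediateField.adjoin ℂ ({a : K' | IsAlgebraic (upF K' L) a} ∪ Set.range u) = ⊤
  unram : ∀ P : Place ℂ K, (∀ f ∈ L, f ≠ 0 → P.ord f = 0) → ∀ (Q : Place ℂ K') (ε : ℕ),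
    Over Q P ε → ¬ Bd P → OnC A u Q ∧ ε = 1
  centre : ∀ P : Place ℂ K, (∀ f ∈ L, f ≠ 0 → P.ord f = 0) → ∀ (Q : Place ℂ K') (ε : ℕ),
    Over Q P ε → OnC A u Q → ¬ Bd P

/-- `B` is at most the boundary divisor of the base: `B v ≤ 1`, and `B v ≤ 1 - 1 / e` if a place with
centre on the variety is over `v` with ramification index `e`. -/
def BaseLe (L : IntermediateField ℂ K) (Bd : Place ℂ K → Prop) (B : Place ℂ L → ℝ) : Prop :=
  ∀ v, B v ≤ 1 ∧ ∀ (P : Place ℂ K) (e : ℕ), Over P v e → ¬ Bd P → 1 ≤ e * (1 - B v)

end

end Pool.Agent.V8H50.AF
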