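import Pool.Agent.V8H50.RL.Frame
import Pool.Agent.Y191.SmallFib
import Pool.Agent.W602.GT.KDefs

/-!
Logarithmic pluricanonical forms are the sections of the multiples of `K + D`.
-/

set_option autoImplicit false

open FF Pool.Agent.W602.GT Pool.Agent.W603.LV Pool.Agent.TH766.MC Pool.Agent.Y191 Pool.Agent.Y172

namespace Pool.Agent.V8H50.AF

variable {K : Type} [Field K] [Algebra ℂ K]

/-- `1` on the boundary and `0` outside -/
noncomputable def ind (Bd : Place ℂ K → Prop) (P : Place ℂ K) : ℝ := by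
  classical exact if Bd P then 1 else 0

theorem ind_pos {Bd : Place ℂ K → Prop} {P : Place ℂ K} (h : Bd P) : ind Bd P = 1 := if_pos h

theorem ind_neg {Bd : Place ℂ K → Prop} {P : Place ℂ K} (h : ¬ Bd P) : ind Bd P = 0 := if_neg h

theorem logSec_of_pair {n N : ℕ} (htr : Algebra.trdeg ℂ K = n) {Bd : Place ℂ K → Prop}
    {ω : (Fin n → Derivation ℂ K K) → K} (h : PairSec n Set.univ (ind Bd) N ω) :
    LogSec ℂ K n N Bd ω := by
  have hreg : ∀ P : Place ℂ K, Divisorial n P → ¬ Bd P → RegAt P ω := by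
    intro P hP hB D hD
    rcases h.2 P trivial hP D hD with h1 | h1
    · exact Or.inl h1
    · right
      rw [ind_neg hB] at h1
      have h2 : (0 : ℝ) ≤ (P.ord (ω D) : ℝ) := by simpa using h1
      exact_mod_cast h2
  refine ⟨h.1, fun P hP D hD => ?_, hreg⟩
  have hDr : ∀ i, DerReg P (D i) := by
    intro i f hf
    by_cases h0 : f = 0
    · rw [h0, map_zero]
      exact P.reg_zero
    · have h1 := P.reg_mul (hD i f) hf
      rwa [div_mul_cancel₀ _ h0] at h1
  by_cases hB : Bd P
  · have htr' : Algebra.trdeg (⊥ : IntermediateField ℂ K) K = n := by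
      have h1 := _root_.trdeg_add_eq ℂ (⊥ : IntermediateField ℂ K) (A := K)
      have h2 : Algebra.trdeg ℂ (⊥ : IntermediateField ℂ K) = 0 := by
        have : Algebra.IsAlgebraic ℂ (⊥ : IntermediateField ℂ K) := inferInstance
        exact _root_.trdeg_eq_zero
      rw [h2, zero_add] at h1
      rw [h1, htr]
    obtain ⟨A, B, hAB, hBr, hA⟩ := Pool.Agent.V8H50.RL.log_to_reg (L := ⊥) htr' (Q := P)
      (fun f hf hf0 => by
        obtain ⟨c, rfl⟩ := IntermediateField.mem_bot.1 hf
        exact P.ord_const fun h => hf0 (by rw [h, map_zero])) hD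
      (fun i f hf => by
        obtain ⟨c, rfl⟩ := IntermediateField.mem_bot.1 hf
        exact (D i).map_algebraMap c)
    have h1 := h.2 P trivial hP (fun i => ∑ j, B i j • D j) hBr
    have h2 : D = fun i => ∑ j, A i j • (∑ l, B j l • D l) := by
      funext i
      have h3 : ∑ j, A i j • (∑ l, B j l • D l) = ∑ l, (A * B) i l • D l := by
        simp only [Finset.smul_sum, smul_smul, Matrix.mul_apply, Finset.sum_smul]
        exact Finset.sum_comm
      rw [h3, hAB]
      simp [Matrix.one_apply]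
    have h3 : ω D = A.det ^ N * ω (fun i => ∑ j, B i j • D j) := by
      conv_lhs => rw [h2]
      exact h.1 A _
    by_cases h0 : ω D = 0
    · exact Or.inl h0
    right
    have hA0 : A.det ^ N ≠ 0 := fun h4 => h0 (by rw [h3, h4, zero_mul])
    have hB0 : ω (fun i => ∑ j, B i j • D j) ≠ 0 := fun h4 => h0 (by rw [h3, h4, mul_zero])
    rcases h1 with h1 | h1
    · exact absurd h1 hB0
    rw [ind_pos hB] at h1
    have h4 : (-(N : ℤ)) ≤ P.ord (ω fun i => ∑ j, B i j • D j) := by
      have h5 : (((-(N : ℤ)) : ℤ) : ℝ) ≤ (P.ord (ω fun i => ∑ j, B i j • D j) : ℝ) := by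
        push_cast
        simpa using h1
      exact_mod_cast h5
    have h6 : Ge P (N • 1) (A.det ^ N) := hA.pow N
    rcases h6 with h6 | h6
    · exact absurd h6 hA0
    rw [h3, P.ord_mul hA0 hB0]
    simp only [nsmul_eq_mul, mul_one] at h6
    linarith
  · exact hreg P hP hB D hDr

theorem kodGe_of_pair {n a : ℕ} (htr : Algebra.trdeg ℂ K = n) {Bd : Place ℂ K → Prop}
    (h : KodairaGe n Set.univ (ind Bd) a) : KodGe ℂ K n Bd a := by
  obtain ⟨N, hN, ω, hω, D, hD⟩ := h
  exact ⟨N, hN, ω, fun j => logSec_of_pair htr (hω j), D, hD⟩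

end Pool.Agent.V8H50.AF
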