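import Pool.Agent.V8H50.AF.A1
import Pool.Agent.V8H50.AF.Sec
import Pool.Agent.V8H50.MA.Main
import Pool.Agent.V8H92.TA.Neg
import Pool.Agent.W602.GT.KPsefS

/-!
Open varieties fibred in products of complements of arrangements: the main theorem.
-/

set_option autoImplicit false
set_option linter.unusedSectionVars false

open FF Pool.Agent.W602.GT Pool.Agent.W603.LV Pool.Agent.Y191 Pool.Agent.V8H50.MA
  Pool.Agent.TH585.SV Pool.Agent.TH766.MC
open Pool.Agent.W619.PL (IsA1Uniruled)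

namespace Pool.Agent.V8H50.AF

section

variable {K K' : Type} [Field K] [Field K'] [Algebra ℂ K] [Algebra ℂ K'] [Algebra K K']
  [IsScalarTower ℂ K K'] {c : ℕ} {r q : Fin c → ℕ} [FiniteDimensional K K']
variable {A : ∀ j, Fin (q j) → Fin (r j + 1) → K'} {u : (Σ j, Fin (r j)) → K'}
variable {L : IntermediateField ℂ K} {Bd : Place ℂ K → Prop}

/-- the weights of a family of bases -/
def wt {M : ℕ} (I : Fin M → ∀ j, Fin (r j + 1) → Fin (q j)) (j : Fin c) (i : Fin (q j)) : ℚ :=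
  cnt I j i / M

theorem det_ne {I : ∀ j, Fin (r j + 1) → Fin (q j)} (h : cdet A I ≠ 0) (j : Fin c) :
    (Matrix.of fun k a => A j (I j k) a).det ≠ 0 :=
  Finset.prod_ne_zero_iff.1 h j (Finset.mem_univ _)

theorem card_le_rk {I : ∀ j, Fin (r j + 1) → Fin (q j)} (h : cdet A I ≠ 0) (j : Fin c)
    (S : Finset (Fin (q j))) : ∑ k, (if I j k ∈ S then 1 else 0) ≤ rk A j S := by
  classical
  have h1 : LinearIndependent K' fun k => A j (I j k) :=
    Matrix.linearIndependent_rows_of_det_ne_zero (det_ne h j)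
  have h2 : LinearIndependent K' fun k : {k : Fin (r j + 1) // I j k ∈ S} =>
      (⟨A j (I j k.1), Submodule.subset_span ⟨_, k.2, rfl⟩⟩ :
        Submodule.span K' (A j '' (S : Set (Fin (q j))))) := by
    refine LinearIndependent.of_comp (Submodule.subtype _) ?_
    exact h1.comp _ Subtype.val_injective
  have h3 := h2.fintype_card_le_finrank
  rw [Fintype.card_subtype] at h3
  rw [Finset.sum_boole]
  exact h3

theorem cnt_le_rk {M : ℕ} {I : Fin M → ∀ j, Fin (r j + 1) → Fin (q j)}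
    (h : ∀ t, cdet A (I t) ≠ 0) (j : Fin c) (S : Finset (Fin (q j))) :
    ∑ i ∈ S, cnt I j i ≤ M * rk A j S := by
  classical
  unfold cnt
  rw [Finset.sum_comm]
  have h1 : ∀ t : Fin M, ∑ i ∈ S, ∑ k, (if I t j k = i then 1 else 0) ≤ rk A j S := by
    intro t
    rw [Finset.sum_comm]
    refine le_trans (le_of_eq ?_) (card_le_rk (h t) j S)
    refine Finset.sum_congr rfl fun k _ => ?_
    rw [Finset.sum_ite_eq]
  refine (Finset.sum_le_sum fun t _ => h1 t).trans (le_of_eq ?_)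
  simp

theorem lcArr_of_bases (hF : ArrFib L Bd A u) {M : ℕ} (hM : 0 < M)
    {I : Fin M → ∀ j, Fin (r j + 1) → Fin (q j)} (h : ∀ t, cdet A (I t) ≠ 0) :
    LcArr (upF K' L) A (wt I) := by
  refine ⟨hF.forms, fun j S _ => ?_⟩
  have hM' : (0 : ℚ) < M := by exact_mod_cast hM
  unfold wt
  rw [← Finset.sum_div, div_le_iff₀ hM', mul_comm]
  have h1 := cnt_le_rk h j S
  exact_mod_cast h1

theorem wt_nonneg {M : ℕ} (I : Fin M → ∀ j, Fin (r j + 1) → Fin (q j)) (j : Fin c)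
    (i : Fin (q j)) : 0 ≤ wt I j i := div_nonneg (Nat.cast_nonneg _) (Nat.cast_nonneg _)

theorem wt_sum {M : ℕ} (hM : 0 < M) (I : Fin M → ∀ j, Fin (r j + 1) → Fin (q j)) (j : Fin c) :
    ∑ i, wt I j i = r j + 1 := by
  have hM' : (M : ℚ) ≠ 0 := by exact_mod_cast hM.ne'
  unfold wt
  rw [← Finset.sum_div]
  have h1 := cnt_sum I j
  have h2 : (∑ i, (cnt I j i : ℚ)) = (r j + 1) * M := by exact_mod_cast h1
  rw [h2, mul_div_cancel_right₀ _ hM']

theorem mord_uniq {P : Place ℂ K'} {s m : ℕ} {B : Fin s → Fin (m + 1) → K'} {x : Fin (m + 1) → K'}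
    {a b : ℤ} {e f : Fin s → ℕ} (h : MOrd P B x a e) (h' : MOrd P B x b f) : a = b ∧ e = f := by
  obtain ⟨h1, ⟨k, hk0, hk⟩, h3⟩ := h
  obtain ⟨h1', ⟨l, hl0, hl⟩, h3'⟩ := h'
  have h4 : a = b := by
    refine le_antisymm ?_ ?_
    · have := (h1 l).resolve_left hl0
      omega
    · have := (h1' k).resolve_left hk0
      omega
  refine ⟨h4, ?_⟩
  funext i
  have h5 := h3 i
  have h6 := h3' i
  rw [h5] at h6
  omega

theorem sum_le_mx {I : ∀ j, Fin (r j + 1) → Fin (q j)} (h : cdet A I ≠ 0) (j : Fin c)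
    (e : Fin (q j) → ℕ) : ∑ k, e (I j k) ≤ mx A j e := by
  classical
  exact Finset.le_sup (f := fun I : Fin (r j + 1) → Fin (q j) => ∑ k, e (I k))
    (Finset.mem_filter.2 ⟨Finset.mem_univ _, det_ne h j⟩)

theorem wt_mul_le {M : ℕ} (hM : 0 < M) {I : Fin M → ∀ j, Fin (r j + 1) → Fin (q j)}
    (h : ∀ t, cdet A (I t) ≠ 0) (j : Fin c) (e : Fin (q j) → ℕ) :
    ∑ i, (wt I j i : ℝ) * e i ≤ mx A j e := by
  classical
  have hM' : (0 : ℝ) < M := by exact_mod_cast hM
  have h1 : ∑ i, (cnt I j i) * e i = ∑ t, ∑ k, e (I t j k) := by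
    unfold cnt
    have h2 : ∀ i, (∑ t, ∑ k, if I t j k = i then 1 else 0) * e i =
        ∑ t, ∑ k, if I t j k = i then e (I t j k) else 0 := by
      intro i
      rw [Finset.sum_mul]
      refine Finset.sum_congr rfl fun t _ => ?_
      rw [Finset.sum_mul]
      refine Finset.sum_congr rfl fun k _ => ?_
      split_ifs with h3
      · rw [one_mul, h3]
      · rw [zero_mul]
    rw [Finset.sum_congr rfl fun i _ => h2 i, Finset.sum_comm]
    refine Finset.sum_congr rfl fun t _ => ?_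
    rw [Finset.sum_comm]
    refine Finset.sum_congr rfl fun k _ => ?_
    rw [Finset.sum_ite_eq, if_pos (Finset.mem_univ _)]
  have h2 : ∑ t, ∑ k, e (I t j k) ≤ M * mx A j e := by
    refine (Finset.sum_le_sum fun t _ => sum_le_mx (h t) j e).trans (le_of_eq ?_)
    simp
  have h3 : ∑ i, (wt I j i : ℝ) * e i = ((∑ i, (cnt I j i) * e i : ℕ) : ℝ) / M := by
    push_cast
    rw [Finset.sum_div]
    refine Finset.sum_congr rfl fun i _ => ?_
    unfold wt
    push_cast
    ring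
  rw [h3, div_le_iff₀ hM', h1, mul_comm]
  exact_mod_cast h2

theorem lcHor_of (hF : ArrFib L Bd A u) {M : ℕ} (hM : 0 < M)
    {I : Fin M → ∀ j, Fin (r j + 1) → Fin (q j)} (h : ∀ t, cdet A (I t) ≠ 0) :
    LcHor L A u (wt I) Set.univ (ind Bd) := by
  intro P _ htr Q ε hQ a e ho
  by_cases hB : Bd P
  · rw [ind_pos hB, sub_self, mul_zero]
    split_ifs
    · exact Finset.sum_nonneg fun j _ => sub_nonneg.2 (wt_mul_le hM h j (e j))
    · exact zero_le_one
  · obtain ⟨hC, hε⟩ := hF.unram P htr Q ε hQ hB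
    have he : ∀ j, e j = fun _ => 0 := by
      intro j
      obtain ⟨b, hb⟩ := hC j
      exact (mord_uniq (ho j) hb).2
    rw [if_neg, ind_neg hB, hε]
    · simp
    · push Not
      intro j i
      rw [he j]

/-- The Kodaira dimension of `K_Y + B + g` is at least `a`, where `g` is at most the moduli part of
the arrangements with respect to a family `I` of bases of hyperplanes. -/
def BaseGe (L : IntermediateField ℂ K) (A : ∀ j, Fin (q j) → Fin (r j + 1) → K') (p : ℕ)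
    (B : Place ℂ L → ℝ) (a : ℕ) : Prop :=
  ∃ (M : ℕ) (I : Fin M → ∀ j, Fin (r j + 1) → Fin (q j)) (g : Place ℂ L → ℝ), 0 < M ∧
    (∀ t, cdet A (I t) ≠ 0) ∧ (∀ v, Divisorial p v → ModGe L A I v (g v)) ∧
    KodairaGe p Set.univ (fun v => B v + g v) a

theorem kod_of_base {p a : ℕ} (hess : Algebra.EssFiniteType ℂ K)
    (hp : Algebra.trdeg ℂ L = p) (hK : Algebra.trdeg ℂ K = (p + ∑ j, r j : ℕ))
    (hF : ArrFib L Bd A u) {B : Place ℂ L → ℝ} (hB : BaseLe L Bd B) (h : BaseGe L A p B a) :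
    KodGe ℂ K (p + ∑ j, r j) Bd a := by
  obtain ⟨M, I, g, hM, hI, hg, hk⟩ := h
  have hM' : (M : ℚ) ≠ 0 := by exact_mod_cast hM.ne'
  refine kodGe_of_pair hK ?_
  refine mod_one hess hp hK hM (lcArr_of_bases hF hM hI) finSigmaFinEquiv hF.basis
    (fun j i => wt_nonneg I j i) (fun j => (wt_sum hM I j).ge) (lcHor_of hF hM hI) hI
    (fun j i => le_of_eq ?_) (B := B) (g := g) (fun v _ hv => hg v hv) (fun P _ v e hov => ?_) ?_
  · unfold wt
    rw [mul_div_cancel₀ _ hM']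
  · by_cases hBd : Bd P
    · rw [ind_pos hBd, sub_self]
      exact mul_nonneg (Nat.cast_nonneg _) (sub_nonneg.2 (hB v).1)
    · rw [ind_neg hBd, sub_zero]
      exact (hB v).2 P e hov hBd
  · obtain ⟨N, hN, η, hη, hD⟩ := hk
    exact ⟨N, hN, η, fun j => ⟨(hη j).1, fun v _ => (hη j).2 v trivial⟩, hD⟩

theorem spanning_of_base {p a : ℕ} {B : Place ℂ L → ℝ} (h : BaseGe L A p B a) :
    Spanning A := by
  obtain ⟨M, I, g, hM, hI, -, -⟩ := h
  intro j
  have h1 : LinearIndependent K' fun k => A j (I ⟨0, hM⟩ j k) :=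
    Matrix.linearIndependent_rows_of_det_ne_zero (det_ne (hI ⟨0, hM⟩) j)
  have h2 := h1.span_eq_top_of_card_eq_finrank' (by simp)
  rw [eq_top_iff, ← h2]
  refine Submodule.span_mono ?_
  rintro _ ⟨k, rfl⟩
  exact ⟨_, rfl⟩

/-- **The main theorem.** -/
theorem tfae {p : ℕ} (hess : Algebra.EssFiniteType ℂ K)
    (hp : Algebra.trdeg ℂ L = p) (hK : Algebra.trdeg ℂ K = (p + ∑ j, r j : ℕ))
    (hF : ArrFib L Bd A u) {B : Place ℂ L → ℝ} (hB : BaseLe L Bd B)
    (hY : Spanning A → BaseGe L A p B 0) :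
    [IsA1Uniruled ℂ K (p + ∑ j, r j) Bd, ¬ KodGe ℂ K (p + ∑ j, r j) Bd 0,
      ¬ Pool.Agent.W602.GT.Psef ℂ K (p + ∑ j, r j) Bd, ¬ Spanning A].TFAE := by
  tfae_have 1 → 3 := Pool.Agent.V8H92.TA.not_psef_of_a1 hK
  tfae_have 3 → 2 := fun h h' => h (psef_of_kodGe h')
  tfae_have 2 → 4 := fun h hs => h (kod_of_base hess hp hK hF hB (hY hs))
  tfae_have 4 → 1 := a1_nonspan hess hK hF
  tfae_finish

end

end Pool.Agent.V8H50.AF
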